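import Pool.Agent.helper48.AN.SpecA

/-!
# Module TA of project an: derivations of the one-point data
-/

namespace AN

open scoped Classical

noncomputable section

theorem TA_cD_pow {R : Type} [CommRing R] (D : Derivation ℤ R R) (f : LS R) (n : ℕ) :
    cD D (f ^ n) = (n : LS R) * f ^ (n - 1) * cD D f := by
  induction n with
  | zero =>
    rw [pow_zero, Nat.cast_zero, zero_mul, zero_mul, ← map_one LS.C, cD_C]
    simp
  | succ n ih =>
    rw [pow_succ, cD_mul, ih]
    rcases n with _ | n
    · simp
    · simp only [Nat.add_sub_cancel]
      push_cast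
      ring

theorem TA_dd_cD {R : Type} [CommRing R] (D : Derivation ℤ R R) (f : LS R) :
    dd (cD D f) = cD D (dd f) := dd_cm _ f

theorem TA : TA_stmt := by
  intro p _ R _ _ g γ a hK D θ hE
  have h1 : ∀ f ∈ AA γ a, cD D f + θ * dd f ∈ AA γ a := by
    intro f hf
    unfold AA at hf
    induction hf using Submodule.span_induction with
    | mem x hx =>
      obtain ⟨r, hr, rfl⟩ := hx
      exact hE r hr
    | zero => simp
    | add x y hx hy hx' hy' =>
      have : cD D (x + y) + θ * dd (x + y) = (cD D x + θ * dd x) + (cD D y + θ * dd y) := by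
        rw [map_add, map_add]; ring
      rw [this]
      exact Submodule.add_mem _ hx' hy'
    | smul c x hx hx' =>
      have : cD D (c • x) + θ * dd (c • x) = D c • x + c • (cD D x + θ * dd x) := by
        rw [cD_smul, map_smul, mul_smul_comm, smul_add, add_assoc]
      rw [this]
      exact Submodule.add_mem _ (Submodule.smul_mem _ _ hx) (Submodule.smul_mem _ _ hx')
  refine ⟨h1, ?_, ?_⟩
  · intro ω hω
    unfold OmA at hω
    induction hω using Submodule.span_induction with
    | mem x hx =>
      obtain ⟨f, hf, h, hh, rfl⟩ := hx
      have e : cD D (f * dd h) + dd (θ * (f * dd h)) =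
          (cD D f + θ * dd f) * dd h + f * dd (cD D h + θ * dd h) := by
        rw [cD_mul, dd_mul, dd_mul, map_add, dd_mul, TA_dd_cD]
        ring
      rw [e]
      exact Submodule.add_mem _ (Submodule.subset_span ⟨_, h1 f hf, h, hh, rfl⟩)
        (Submodule.subset_span ⟨f, hf, _, h1 h hh, rfl⟩)
    | zero => simp
    | add x y hx hy hx' hy' =>
      have : cD D (x + y) + dd (θ * (x + y)) =
          (cD D x + dd (θ * x)) + (cD D y + dd (θ * y)) := by
        rw [map_add, mul_add, map_add]; ring
      rw [this]
      exact Submodule.add_mem _ hx' hy'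
    | smul c x hx hx' =>
      have : cD D (c • x) + dd (θ * (c • x)) = D c • x + c • (cD D x + dd (θ * x)) := by
        rw [cD_smul, mul_smul_comm, map_smul, smul_add, add_assoc]
      rw [this]
      exact Submodule.add_mem _ (Submodule.smul_mem _ _ hx) (Submodule.smul_mem _ _ hx')
  · intro f g₀ o₀ h
    have h2 : cD D (f ^ p) = 0 := by
      have hp : (p : LS R) = 0 := by
        have := map_natCast (LS.C : R →+* LS R) p
        rw [CharP.cast_eq_zero, map_zero] at this
        exact this.symm
      rw [TA_cD_pow, hp]
      ring
    rw [h, map_add] at h2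
    exact eq_neg_of_add_eq_zero_left h2

end

end AN
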